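import Pool.Agent.W668.Shai.C01

/-!
# MP_df090f_an: surjective homomorphisms from `B(C(βΓ))` have large targets

`C(βΓ) = ℓ_∞(Γ)`; more generally the space `ℓ_∞(Γ, E)` of bounded functions from an infinite set `Γ`
to a nonzero Banach space `E` is considered.  If there is a surjective homomorphism from the bounded
operators on `ℓ_∞(Γ, E)` onto the bounded operators on a nonzero Banach space `Y`, then
`ℓ_∞(Γ, Y)` is a quotient of `Y`, and every dense subset of `Y` has at least `2 ^ |Γ|` elements.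
-/

set_option autoImplicit false

open Filter Topology Set
open scoped BoundedContinuousFunction Cardinal

namespace Pool.Agent.Results.MP_df090f_an.LargeTargets

open Pool.Agent.H148R3 Pool.Agent.W668.Shai

universe u v w

section
variable {𝕜 : Type w} [RCLike 𝕜] {Γ : Type u} [TopologicalSpace Γ] [DiscreteTopology Γ]
  {E : Type v} [NormedAddCommGroup E] [NormedSpace 𝕜 E]

/-- the `i`-th part of a function -/
noncomputable def part (e : Γ × Γ ≃ Γ) (i : Γ) : (Γ →ᵇ E) →L[𝕜] (Γ →ᵇ E) :=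
  LinearMap.mkContinuous
    { toFun := fun x => x.compContinuous ⟨fun γ => e (i, γ), continuous_of_discreteTopology⟩
      map_add' := fun _ _ => rfl
      map_smul' := fun _ _ => rfl } 1 (by
    intro x
    rw [one_mul]
    exact (BoundedContinuousFunction.norm_le (norm_nonneg _)).2 fun γ => x.norm_coe_le_norm _)

lemma part_apply (e : Γ × Γ ≃ Γ) (i γ : Γ) (x : Γ →ᵇ E) :
    (part e i : (Γ →ᵇ E) →L[𝕜] (Γ →ᵇ E)) x γ = x (e (i, γ)) := rfl

lemma part_norm (e : Γ × Γ ≃ Γ) (i : Γ) : ‖(part e i : (Γ →ᵇ E) →L[𝕜] (Γ →ᵇ E))‖ ≤ 1 :=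
  LinearMap.mkContinuous_norm_le _ zero_le_one _

/-- a bounded family of operators can be glued -/
lemma glue (e : Γ × Γ ≃ Γ) (R : Γ → ((Γ →ᵇ E) →L[𝕜] (Γ →ᵇ E))) (C : ℝ) (hC : 0 ≤ C)
    (hR : ∀ i, ‖R i‖ ≤ C) :
    ∃ T : (Γ →ᵇ E) →L[𝕜] (Γ →ᵇ E), ∀ i, part e i * T = R i := by
  have hb : ∀ (x : Γ →ᵇ E) (γ : Γ), ‖R (e.symm γ).1 x (e.symm γ).2‖ ≤ C * ‖x‖ := by
    intro x γ
    exact ((R (e.symm γ).1 x).norm_coe_le_norm _).trans
      (((R (e.symm γ).1).le_opNorm x).trans (mul_le_mul_of_nonneg_right (hR _) (norm_nonneg _)))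
  refine ⟨LinearMap.mkContinuous
    { toFun := fun x => BoundedContinuousFunction.ofNormedAddCommGroup
        (fun γ => R (e.symm γ).1 x (e.symm γ).2) continuous_of_discreteTopology (C * ‖x‖) (hb x)
      map_add' := fun x y => by
        ext γ
        show R _ (x + y) _ = R _ x _ + R _ y _
        rw [map_add]
        rfl
      map_smul' := fun c x => by
        ext γ
        show R _ (c • x) _ = c • R _ x _
        rw [map_smul]
        rfl } C ?_, ?_⟩
  · intro x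
    exact (BoundedContinuousFunction.norm_le (by positivity)).2 fun γ => hb x γ
  · intro i
    ext x γ
    show R (e.symm (e (i, γ))).1 x (e.symm (e (i, γ))).2 = R i x γ
    rw [e.symm_apply_apply]

end

/-- **Main theorem.**  Let `𝕜 = ℝ` or `ℂ`, `Γ` an infinite discrete space, `E` a Banach space
(`E = 𝕜` is the case of the question, as `C(βΓ) = ℓ_∞(Γ)`), `Y` a nonzero Banach space, and let
`φ` be a surjective algebra homomorphism (multiplicative linear map, neither continuity nor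
unitality is assumed) from the bounded operators on `ℓ_∞(Γ, E)` onto the bounded operators on `Y`.
Then `ℓ_∞(Γ, Y)` is the image of `Y` under a bounded operator, and every dense subset of `Y` has at
least `2 ^ |Γ|` elements. -/
theorem result (𝕜 : Type w) [RCLike 𝕜] (Γ : Type u) [Infinite Γ] [TopologicalSpace Γ]
    [DiscreteTopology Γ] (E : Type v) [NormedAddCommGroup E] [NormedSpace 𝕜 E] [CompleteSpace E]
    (Y : Type u) [NormedAddCommGroup Y] [NormedSpace 𝕜 Y] [CompleteSpace Y] [Nontrivial Y]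
    (φ : ((Γ →ᵇ E) →L[𝕜] (Γ →ᵇ E)) →ₙₐ[𝕜] (Y →L[𝕜] Y)) (hφ : Function.Surjective φ) :
    (∃ Θ : Y →L[𝕜] (Γ →ᵇ Y), Function.Surjective Θ) ∧
    ∀ D : Set Y, Dense D → (2 : Cardinal) ^ #Γ ≤ #D := by
  classical
  set ψ : ((Γ →ᵇ E) →L[𝕜] (Γ →ᵇ E)) →ₐ[𝕜] (Y →L[𝕜] Y) := toAlg φ hφ with hψdef
  have hψ : Function.Surjective ψ := hφ
  obtain ⟨K, hK0, hK⟩ := auto_cont ψ hψ
  obtain ⟨e⟩ : Nonempty (Γ × Γ ≃ Γ) := by
    rw [← Cardinal.eq, Cardinal.mk_prod, Cardinal.lift_id,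
      Cardinal.mul_eq_self (Cardinal.aleph0_le_mk Γ)]
  obtain ⟨y0, hy0⟩ := exists_ne (0 : Y)
  obtain ⟨f, -, hf⟩ := exists_dual_vector 𝕜 y0 (norm_ne_zero_iff.2 hy0)
  have hn0 : ((‖y0‖ : ℝ) : 𝕜) ≠ 0 := by simpa using hy0
  -- the operator onto the sum
  have hb : ∀ (y : Y) (i : Γ), ‖ψ (part e i) y‖ ≤ K * ‖y‖ := by
    intro y i
    refine ((ψ (part e i)).le_opNorm y).trans (mul_le_mul_of_nonneg_right ?_ (norm_nonneg _))
    calc ‖ψ (part e i)‖ ≤ K * ‖(part e i : (Γ →ᵇ E) →L[𝕜] (Γ →ᵇ E))‖ := hK _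
      _ ≤ K * 1 := mul_le_mul_of_nonneg_left (part_norm e i) hK0
      _ = K := mul_one K
  obtain ⟨Θ, hΘ⟩ : ∃ Θ : Y →L[𝕜] (Γ →ᵇ Y), ∀ y i, Θ y i = ψ (part e i) y := by
    refine ⟨LinearMap.mkContinuous
      { toFun := fun y => BoundedContinuousFunction.ofNormedAddCommGroup
          (fun i => ψ (part e i) y) continuous_of_discreteTopology (K * ‖y‖) (hb y)
        map_add' := fun x y => by
          ext i
          exact map_add (ψ (part e i)) x y
        map_smul' := fun c x => by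
          ext i
          exact map_smul (ψ (part e i)) c x } K ?_, fun y i => rfl⟩
    intro y
    exact (BoundedContinuousFunction.norm_le (by positivity)).2 fun i => hb y i
  have hsurj : Function.Surjective Θ := by
    intro g
    let ψL : ((Γ →ᵇ E) →L[𝕜] (Γ →ᵇ E)) →L[𝕜] (Y →L[𝕜] Y) :=
      LinearMap.mkContinuous (ψ : ((Γ →ᵇ E) →L[𝕜] (Γ →ᵇ E)) →ₗ[𝕜] (Y →L[𝕜] Y)) K hK
    obtain ⟨C, hC0, hC⟩ := ψL.exists_preimage_norm_le hψ
    let A : Γ → (Y →L[𝕜] Y) := fun i => f.smulRight (((‖y0‖ : ℝ) : 𝕜)⁻¹ • g i)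
    have hA0 : ∀ i, A i y0 = g i := by
      intro i
      show f y0 • (((‖y0‖ : ℝ) : 𝕜)⁻¹ • g i) = g i
      rw [hf, smul_smul, mul_inv_cancel₀ hn0, one_smul]
    have hA : ∀ i, ‖A i‖ ≤ ‖f‖ * (‖((‖y0‖ : ℝ) : 𝕜)⁻¹‖ * ‖g‖) := by
      intro i
      show ‖f.smulRight (((‖y0‖ : ℝ) : 𝕜)⁻¹ • g i)‖ ≤ _
      rw [ContinuousLinearMap.norm_smulRight_apply, norm_smul]
      gcongr
      exact g.norm_coe_le_norm i
    choose R hR hRn using fun i => hC (A i)
    obtain ⟨T, hT⟩ := glue e R (C * (‖f‖ * (‖((‖y0‖ : ℝ) : 𝕜)⁻¹‖ * ‖g‖))) (by positivity)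
      fun i => (hRn i).trans (mul_le_mul_of_nonneg_left (hA i) hC0.le)
    refine ⟨ψ T y0, ?_⟩
    ext i
    rw [hΘ]
    have h1 : ψ (part e i) (ψ T y0) = ψ (part e i * T) y0 := by
      rw [map_mul]
      rfl
    rw [h1, hT i]
    have h2 : ψ (R i) = A i := hR i
    rw [h2, hA0]
  refine ⟨⟨Θ, hsurj⟩, fun D hD => ?_⟩
  -- separated points
  let z : Set Γ → (Γ →ᵇ Y) := fun S => BoundedContinuousFunction.ofNormedAddCommGroup
    (fun i => if i ∈ S then y0 else 0) continuous_of_discreteTopology ‖y0‖ (by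
      intro i
      by_cases hi : i ∈ S
      · rw [if_pos hi]
      · rw [if_neg hi, norm_zero]
        exact norm_nonneg _)
  have hzi : ∀ S i, z S i = if i ∈ S then y0 else 0 := fun S i => rfl
  choose y hy using fun S => hsurj (z S)
  have hy0' : 0 < ‖y0‖ := norm_pos_iff.2 hy0
  set δ : ℝ := ‖y0‖ / (2 * (‖Θ‖ + 1)) with hδ
  have hΘ1 : 0 < ‖Θ‖ + 1 := by positivity
  have hδ0 : 0 < δ := by positivity
  choose d hdD hd using fun S => Metric.dense_iff.1 hD (y S) δ hδ0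
  have hinj : Function.Injective (fun S => (⟨d S, (hd S)⟩ : D)) := by
    intro S S' h
    have h1 : d S = d S' := congrArg Subtype.val h
    by_contra hne
    obtain ⟨i, hi⟩ : ∃ i, ¬ (i ∈ S ↔ i ∈ S') := by
      by_contra hcon
      push Not at hcon
      exact hne (Set.ext hcon)
    have h2 : ‖y S - y S'‖ < 2 * δ := by
      have e1 := hdD S
      have e2 := hdD S'
      rw [Metric.mem_ball, dist_eq_norm] at e1 e2
      rw [← h1] at e2
      have e3 : y S - y S' = (d S - y S') - (d S - y S) := by abel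
      rw [e3]
      linarith [norm_sub_le (d S - y S') (d S - y S)]
    have h3 : ‖y0‖ ≤ ‖Θ (y S - y S') i‖ := by
      rw [map_sub, hy, hy, BoundedContinuousFunction.sub_apply, hzi, hzi]
      by_cases h4 : i ∈ S
      · have h5 : i ∉ S' := fun h5 => hi ⟨fun _ => h5, fun _ => h4⟩
        rw [if_pos h4, if_neg h5, sub_zero]
      · have h5 : i ∈ S' := by
          by_contra h5
          exact hi ⟨fun h => absurd h h4, fun h => absurd h h5⟩
        rw [if_neg h4, if_pos h5, zero_sub, norm_neg]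
    have h4 : ‖Θ (y S - y S') i‖ ≤ ‖Θ‖ * ‖y S - y S'‖ :=
      ((Θ (y S - y S')).norm_coe_le_norm i).trans (Θ.le_opNorm _)
    have h5 : ‖Θ‖ * ‖y S - y S'‖ ≤ (‖Θ‖ + 1) * ‖y S - y S'‖ := by
      have := norm_nonneg (y S - y S')
      nlinarith
    have h6 : (‖Θ‖ + 1) * ‖y S - y S'‖ < (‖Θ‖ + 1) * (2 * δ) := mul_lt_mul_of_pos_left h2 hΘ1
    have h7 : (‖Θ‖ + 1) * (2 * δ) = ‖y0‖ := by
      rw [hδ]
      field_simp
    linarith
  have := Cardinal.mk_le_of_injective hinj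
  rwa [Cardinal.mk_set] at this

end Pool.Agent.Results.MP_df090f_an.LargeTargets
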